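import Mathlib

/-!
# Definitions for `N(n,r) = (1+o(1)) M(n,r)` (MP_10b4aa_co)

Letters `0..r`; the word `w` codes the chain `F_m = {x : w x ≤ m}`, `m = 0..r-1`.
Ground set: `y` dead elements, `r` blocks (one for each coordinate) of size `z`, `R` parts; a part is
`Fin (r+1) × Fin t` (row `m < r` is used by coordinate `m`, row `r` is never used).
Window length `2h` (so `2h+1` levels), `k` windows for each coordinate.
-/

set_option autoImplicit false

namespace Pool.Agent.Lib_helper46.CC

open Finset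

/-- positions of a part -/
abbrev Pos (r t : ℕ) := Fin (r + 1) × Fin t
/-- words on a part -/
abbrev PW (r t : ℕ) := Pos r t → Fin (r + 1)
/-- words on a block -/
abbrev ZW (r z : ℕ) := Fin z → Fin (r + 1)
/-- labels: a part and a permutation of the positions of a part -/
abbrev Lab (r R t : ℕ) := Fin R × Equiv.Perm (Pos r t)
/-- the ground set -/
abbrev Gr (r y z R t : ℕ) := Fin y ⊕ (Fin r × Fin z) ⊕ (Fin R × Pos r t)
/-- words on the ground set -/
abbrev Word (r y z R t : ℕ) := (Fin y → Fin (r + 1)) × (Fin r → ZW r z) × (Fin R → PW r t)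

section Basic

variable {ι : Type*} [Fintype ι] {r : ℕ}

/-- number of positions with letter at most `m` -/
def cl (b : ι → Fin (r + 1)) (m : Fin r) : ℕ := (univ.filter (fun x => (b x : ℕ) ≤ (m : ℕ))).card

/-- number of positions with letter `j` -/
def ct (b : ι → Fin (r + 1)) (j : Fin (r + 1)) : ℕ := (univ.filter (fun x => b x = j)).card

/-- number of words with given numbers `cl` -/
def NC (ι : Type*) [Fintype ι] [DecidableEq ι] {r : ℕ} (g : Fin r → ℤ) : ℕ :=
  (univ.filter (fun b : ι → Fin (r + 1) => ∀ m, (cl b m : ℤ) = g m)).card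

/-- all letters have frequency `|ι| / (r+1)` up to `A √|ι|` -/
def ZTyp (A : ℝ) (u : ι → Fin (r + 1)) : Prop :=
  ∀ j, |(ct u j : ℝ) - (Fintype.card ι : ℝ) / (r + 1)| ≤ A * Real.sqrt (Fintype.card ι)

/-- Gram matrix of the vectors `e_m - e_(m+1)` -/
def Gm (r : ℕ) (m m' : Fin r) : ℝ :=
  if m = m' then 2 else if (m : ℕ) + 1 = m' ∨ (m' : ℕ) + 1 = m then -1 else 0

/-- the quadratic form of `Gm` -/
def QF {r : ℕ} (x : Fin r → ℝ) : ℝ := ∑ m, ∑ m', Gm r m m' * x m * x m'

/-- the difference (number of letters `m`) - (number of letters `m+1`) -/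
def Dl (b : ι → Fin (r + 1)) (m : Fin r) : ℝ := (ct b m.castSucc : ℝ) - (ct b m.succ : ℝ)

end Basic

section Rows

variable {r t : ℕ}

/-- `T_m`: positions of row `m` with letter `m` or `m+1` -/
def Tr (b : PW r t) (m : Fin r) : Finset (Fin t) :=
  univ.filter (fun x => (b (m.castSucc, x) : ℕ) = m ∨ (b (m.castSucc, x) : ℕ) = m + 1)

/-- `S_m`: positions of row `m` with letter `m` -/
def Sr (b : PW r t) (m : Fin r) : Finset (Fin t) :=
  univ.filter (fun x => (b (m.castSucc, x) : ℕ) = m)

/-- replace `S_m` by `S m` for all `m < r` (inside `T_m`) -/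
def rep (b : PW r t) (S : Fin r → Finset (Fin t)) : PW r t := fun x =>
  if h : (x.1 : ℕ) < r then
    (if x.2 ∈ Tr b ⟨x.1, h⟩ then
      (if x.2 ∈ S ⟨x.1, h⟩ then x.1 else (⟨(x.1 : ℕ) + 1, by omega⟩ : Fin (r + 1))) else b x)
  else b x

/-- niceness of the level `x` in `2^T` -/
def Nice (r t D : ℕ) (T : Finset (Fin t)) (x : ℤ) : Prop :=
  |2 * x - (T.card : ℤ)| ≤ D ∧ t ≤ (r + 1) * T.card

/-- admissible pairs `(T, a)`: the window `a, ..., a + 2h` of `2^T` is in the bulk -/
def Okk (r t h : ℕ) (T : Finset (Fin t)) (a : ℕ) : Prop :=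
  t ≤ (r + 1) * T.card ∧ T.card ≤ 4 * a ∧ 4 * (a + 2 * h) ≤ 3 * T.card

end Rows

section Paths

variable {α : Type*}

/-- value of the path `P` at time `n` (stopped at time `N`) -/
def pv {N : ℕ} (P : Fin (N + 1) → Finset α) (n : ℕ) : Finset α := P ⟨min n N, by omega⟩

/-- `At`, `st` describe a partition of the levels `a, ..., a+L` of `2^T` into chains: `st S` is the
representative of the class of `S`, `At` the set of representatives -/
structure IsSys {α : Type*} [DecidableEq α] (T : Finset α) (a L : ℕ) (At : Finset (Finset α))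
    (st : Finset α → Finset α) : Prop where
  At_sub : ∀ B ∈ At, B ⊆ T ∧ a ≤ B.card ∧ B.card ≤ a + L ∧ st B = B
  st_mem : ∀ S, S ⊆ T → a ≤ S.card → S.card ≤ a + L → st S ∈ At
  mono : ∀ S S', S ⊆ T → S' ⊆ T → a ≤ S.card → S.card ≤ S'.card → S'.card ≤ a + L →
    st S = st S' → S ⊆ S'
  card_le : At.card ≤ T.card.choose a + T.card.choose (a + L)

end Paths

section Kernel

/-- The local kernels. `At`, `st` are chain partitions of windows; `K c M T B P` is the weight of the
path `P` in `2^T` marked with `B`, for a coordinate using the part in `M` windows; `c = false` is the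
precise kernel (used if every coordinate uses the part at most once), `c = true` the rough one. -/
structure Ker (r k t h D D2 : ℕ) (δ B : ℝ) where
  At : Finset (Fin t) → ℕ → Finset (Finset (Fin t))
  st : Finset (Fin t) → ℕ → Finset (Fin t) → Finset (Fin t)
  isSys : ∀ T a, Okk r t h T a → IsSys T a (2 * h) (At T a) (st T a)
  K : Bool → ℕ → Finset (Fin t) → Finset (Fin t) → (Fin (k * (2 * h) + 1) → Finset (Fin t)) → ℝ
  nonneg : ∀ c M T S P, 0 ≤ K c M T S P
  oneB : 1 ≤ B
  le_B : ∀ c M T S P, K c M T S P ≤ if M = 0 then 1 else B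
  supp : ∀ c M T S P, K c M T S P ≠ 0 → (∀ i j, i ≤ j → pv P i ⊆ pv P j) ∧
    ∀ j, pv P j ⊆ T ∧ (pv P j).card = (pv P 0).card + min j (M * (2 * h))
  mass : ∀ c M J T (a : ℕ), J ≤ M → M ≤ k → (c = false → M ≤ 1) →
    ∑ S, ∑ P, (if (pv P (J * (2 * h))).card = a then K c M T S P else 0) =
      (open Classical in
      if M = 0 ∨ Nice r t (if c = true then D2 else D) T (a + ((M : ℤ) - 2 * J) * h) then
        ((T.card.choose ((a : ℤ) + ((M : ℤ) - 2 * J) * h).toNat : ℕ) : ℝ) else 0)
  dens : ∀ c M J T S', J ≤ M → M ≤ k → (c = false → M ≤ 1) →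
    ∑ S, ∑ P, (if pv P (J * (2 * h)) = S' then K c M T S P else 0) ≤ if M = 0 then 1 else B
  zero : ∀ c T S', S' ⊆ T → ∑ S, ∑ P, (if pv P 0 = S' then K c 0 T S P else 0) = 1
  cur_ge : ∀ T a S, Okk r t h T a → Nice r t D T (a + h) → S ∈ At T a →
    1 - δ ≤ ∑ P, if (pv P 0).card = a then K false 1 T S P else 0
  cur_le : ∀ T a S, ∑ P, (if (pv P 0).card = a then K false 1 T S P else 0) ≤ B
  cur_sub : ∀ T S P, K false 1 T S P ≠ 0 → S ⊆ T
  cur_supp : ∀ T S P, K false 1 T S P ≠ 0 → Okk r t h T (pv P 0).card →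
    ∀ S', S' ⊆ T → (pv P 0).card ≤ S'.card → S'.card ≤ (pv P 0).card + 2 * h →
      st T (pv P 0).card S' = S → pv P (S'.card - (pv P 0).card) = S'

variable {r k t h D D2 : ℕ} {δ B : ℝ}

/-- total weight of the paths through `S` after `J` windows -/
noncomputable def dn (κ : Ker r k t h D D2 δ B) (c : Bool) (M J : ℕ) (T S' : Finset (Fin t)) : ℝ :=
  ∑ S, ∑ P, (if pv P (J * (2 * h)) = S' then κ.K c M T S P else 0)

/-- total weight of the contents of a part which show the word `b` after `J m` uses by coordinate `m` -/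
noncomputable def Wid (κ : Ker r k t h D D2 δ B) (c : Bool) (M J : Fin r → ℕ) (b : PW r t) : ℝ :=
  ∏ m, dn κ c (M m) (J m) (Tr b m) (Sr b m)

/-- niceness of the reference word of a part -/
def NiceW (r t D D2 : ℕ) (c : Bool) (M : Fin r → ℕ) (b : PW r t) : Prop :=
  ∀ m, M m = 0 ∨ Nice r t (if c = true then D2 else D) (Tr b m) (Sr b m).card

end Kernel

section Labels

/-- number of windows of coordinate `m` that use the part `p` -/
def usz {r k R : ℕ} (f : Fin r → Fin k → Fin R) (p : Fin R) (m : Fin r) : ℕ :=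
  (univ.filter (fun j => f m j = p)).card

/-- number of windows before `j` of coordinate `m` that use the part `p` -/
def pas {r k R : ℕ} (f : Fin r → Fin k → Fin R) (p : Fin R) (m : Fin r) (j : ℕ) : ℕ :=
  (univ.filter (fun j' : Fin k => f m j' = p ∧ (j' : ℕ) < j)).card

/-- is the part used at least twice by some coordinate? -/
def hib {r k R : ℕ} (f : Fin r → Fin k → Fin R) (p : Fin R) : Bool := decide (∃ m, 2 ≤ usz f p m)

/-- the permutation of the first index with label in part `p` -/
noncomputable def frs {U : Type*} [Fintype U] [LinearOrder U] {r R t : ℕ} (f : U → Lab r R t)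
    (p : Fin R) : Equiv.Perm (Pos r t) :=
  if h : (univ.filter (fun u => (f u).1 = p)).Nonempty then
    (f ((univ.filter (fun u => (f u).1 = p)).min' h)).2 else 1

/-- the permutation of the first window (lexicographic order) using the part `p` -/
noncomputable def fsg {r k R t : ℕ} (f : Fin r → Fin k → Lab r R t) (p : Fin R) :
    Equiv.Perm (Pos r t) :=
  frs (fun u : Fin r ×ₗ Fin k => f (ofLex u).1 (ofLex u).2) p

/-- the windows other than the current ones -/
abbrev Oth {r k : ℕ} (i : Fin r → Fin k) := {u : Fin r × Fin k // u.2 ≠ i u.1}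

/-- combine current labels and the labels of the other windows -/
def join {r k : ℕ} {Λ : Type*} (i : Fin r → Fin k) (c : Fin r → Λ) (o : Oth i → Λ) :
    Fin r → Fin k → Λ :=
  fun m j => if h : j = i m then c m else o ⟨(m, j), h⟩

variable {r k t h D D2 : ℕ} {δ B : ℝ} {R : ℕ}

/-- no other window uses a current part -/
def Fre (i : Fin r → Fin k) (f : Fin r → Fin k → Fin R) : Prop :=
  ∀ m j, j ≠ i m → ∀ m', f m j ≠ f m' (i m')

instance (i : Fin r → Fin k) (f : Fin r → Fin k → Fin R) : Decidable (Fre i f) := by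
  unfold Fre; infer_instance

/-- total weight of the contents of the parts which are not current and show the word `w` in cell `i` -/
noncomputable def Psi (κ : Ker r k t h D D2 δ B) (i : Fin r → Fin k) (f : Fin r → Fin k → Lab r R t)
    (w : Fin R → PW r t) : ℝ :=
  if Fre i (fun m j => (f m j).1) then
    ∏ p ∈ univ.filter (fun p => ∀ m, (f m (i m)).1 ≠ p),
      Wid κ (hib (fun m j => (f m j).1) p) (usz (fun m j => (f m j).1) p)
        (fun m => pas (fun m j => (f m j).1) p m (i m)) (w p ∘ fsg f p)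
  else 0

end Labels

section Blocks

variable {r z k : ℕ}

/-- one letter `m+1` becomes `m` -/
def IsStep (m : Fin r) (u u' : ZW r z) : Prop :=
  ∃ x, (u x : ℕ) = m + 1 ∧ u' = Function.update u x m.castSucc

/-- valid histories of the block of coordinate `m` -/
def VH (A : ℝ) (m : Fin r) (H : Fin k → ZW r z) : Prop :=
  (∀ j : Fin k, (j : ℕ) = 0 → ZTyp (2 * A) (H j)) ∧
    ∀ j j' : Fin k, (j' : ℕ) = j + 1 → IsStep m (H j) (H j')

open Classical in
/-- weight of a history of the block of coordinate `m` -/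
noncomputable def wz (A : ℝ) (m : Fin r) (H : Fin k → ZW r z) : ℝ :=
  if VH A m H then (((r : ℝ) + 1) / z) ^ (k - 1) else 0

end Blocks

section Edges

variable {r y z R t k h D D2 : ℕ} {δ B : ℝ}

/-- type of a word -/
def typ (w : Word r y z R t) (m : Fin r) : ℕ :=
  cl w.1 m + ∑ m', cl (w.2.1 m') m + ∑ p, cl (w.2.2 p) m

/-- data of an edge (a long chain): dead word, histories of the blocks, and for every part a word and
for every coordinate a marked path -/
abbrev Edge (r y z R t k h : ℕ) :=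
  (Fin y → Fin (r + 1)) × (Fin r → Fin k → ZW r z) ×
    (Fin R → PW r t × (Fin r → Finset (Fin t) × (Fin (k * (2 * h) + 1) → Finset (Fin t))))

/-- label function: coordinate and word of the block to label -/
abbrev LF (r z R t : ℕ) := Fin r → ZW r z → Lab r R t

/-- labels along the chain -/
def lab (Fn : LF r z R t) (e : Edge r y z R t k h) : Fin r → Fin k → Lab r R t :=
  fun m j => Fn m (e.2.1 m j)

/-- parts along the chain -/
def prt (Fn : LF r z R t) (e : Edge r y z R t k h) : Fin r → Fin k → Fin R :=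
  fun m j => (Fn m (e.2.1 m j)).1

/-- the cell `i` of the chain `e` is free: no other window uses a current part -/
def FreE (Fn : LF r z R t) (e : Edge r y z R t k h) (i : Fin r → Fin k) : Prop := Fre i (prt Fn e)

/-- the representative of the unit of the chain `e` in cell `i` -/
noncomputable def uw (Fn : LF r z R t) (e : Edge r y z R t k h) (i : Fin r → Fin k) :
    Word r y z R t :=
  (e.1, fun m => e.2.1 m (i m), fun p =>
    rep (e.2.2 p).1 (fun m => if prt Fn e m (i m) = p then ((e.2.2 p).2 m).1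
      else pv ((e.2.2 p).2 m).2 (pas (prt Fn e) p m (i m) * (2 * h))) ∘ (fsg (lab Fn e) p).symm)

/-- weight of the content of part `p` -/
noncomputable def wp (κ : Ker r k t h D D2 δ B) (f : Fin r → Fin k → Fin R) (p : Fin R)
    (d : PW r t × (Fin r → Finset (Fin t) × (Fin (k * (2 * h) + 1) → Finset (Fin t)))) : ℝ :=
  ∏ m, if pv (d.2 m).2 0 = Sr d.1 m then κ.K (hib f p) (usz f p m) (Tr d.1 m) (d.2 m).1 (d.2 m).2
    else 0

/-- type of the start word of `e` -/
def st0 (e : Edge r y z R t k h) (m : Fin r) : ℕ :=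
  cl e.1 m + ∑ m', (if hk : 0 < k then cl (e.2.1 m' ⟨0, hk⟩) m else 0) + ∑ p, cl (e.2.2 p).1 m

/-- weight of an edge; `f0` = type of the bottom of the box -/
noncomputable def wt (κ : Ker r k t h D D2 δ B) (A : ℝ) (f0 : Fin r → ℕ) (Fn : LF r z R t)
    (e : Edge r y z R t k h) : ℝ :=
  if ∀ m, st0 e m = f0 m then
    (∏ m, wz A m (e.2.1 m)) * ∏ p, wp κ (prt Fn e) p (e.2.2 p)
  else 0

end Edges

section Units

variable {r y z R t k h D D2 : ℕ} {δ B : ℝ}

/-- current labels of a word -/
def cur (Fn : LF r z R t) (w : Word r y z R t) (m : Fin r) : Lab r R t := Fn m (w.2.1 m)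

/-- local word of part `p` -/
noncomputable def lw (Fn : LF r z R t) (w : Word r y z R t) (p : Fin R) : PW r t :=
  w.2.2 p ∘ frs (cur Fn w) p

/-- the set in which `F_m` moves -/
noncomputable def TT (Fn : LF r z R t) (w : Word r y z R t) (m : Fin r) : Finset (Fin t) :=
  Tr (lw Fn w (cur Fn w m).1) m

/-- its intersection with `F_m` -/
noncomputable def SS (Fn : LF r z R t) (w : Word r y z R t) (m : Fin r) : Finset (Fin t) :=
  Sr (lw Fn w (cur Fn w m).1) m

/-- replace the sets `SS` by the sets `S` -/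
noncomputable def modw (Fn : LF r z R t) (w : Word r y z R t) (S : Fin r → Finset (Fin t)) :
    Word r y z R t :=
  (w.1, w.2.1, fun p => rep (lw Fn w p)
    (fun m => if (cur Fn w m).1 = p then S m else Sr (lw Fn w p) m) ∘ (frs (cur Fn w) p).symm)

/-- bottom of the window `i m` of coordinate `m` -/
def bot (f0 : Fin r → ℕ) (h : ℕ) (i : Fin r → Fin k) (m : Fin r) : ℕ := f0 m + i m * (2 * h + 1)

/-- `w` is in cell `i` -/
def InC (f0 : Fin r → ℕ) (h : ℕ) (i : Fin r → Fin k) (w : Word r y z R t) : Prop :=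
  ∀ m, bot f0 h i m ≤ typ w m ∧ typ w m ≤ bot f0 h i m + 2 * h

/-- the level of `SS` if `F_m` were at the bottom of the window -/
noncomputable def al (f0 : Fin r → ℕ) (h : ℕ) (Fn : LF r z R t) (i : Fin r → Fin k)
    (w : Word r y z R t) (m : Fin r) : ℕ := (SS Fn w m).card - (typ w m - bot f0 h i m)

/-- the class of `w` is admissible -/
def OkW (f0 : Fin r → ℕ) (h : ℕ) (Fn : LF r z R t) (i : Fin r → Fin k) (w : Word r y z R t) : Prop :=
  ∀ m, Okk r t h (TT Fn w m) (al f0 h Fn i w m)

/-- total weight of the frozen contents -/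
noncomputable def Phi (κ : Ker r k t h D D2 δ B) (A : ℝ) (Fn : LF r z R t) (i : Fin r → Fin k)
    (w : Word r y z R t) : ℝ :=
  ∑ H : Fin r → Fin k → ZW r z, if (∀ m, H m (i m) = w.2.1 m) then
    (∏ m, wz A m (H m)) * Psi κ i (fun m j => Fn m (H m j)) w.2.2 else 0

/-- good class: nice and almost completely covered by the fractional cover -/
def Good (κ : Ker r k t h D D2 δ B) (A η : ℝ) (f0 : Fin r → ℕ) (Fn : LF r z R t)
    (i : Fin r → Fin k) (w : Word r y z R t) : Prop :=
  (∀ m, Nice r t D (TT Fn w m) (al f0 h Fn i w m + h)) ∧ 1 - η ≤ Phi κ A Fn i w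

/-- `w` is the representative of its unit -/
def Rp (κ : Ker r k t h D D2 δ B) (f0 : Fin r → ℕ) (Fn : LF r z R t)
    (i : Fin r → Fin k) (w : Word r y z R t) : Prop :=
  ∀ m, SS Fn w m ∈ κ.At (TT Fn w m) (al f0 h Fn i w m)

/-- the letters of a word -/
def wv (w : Word r y z R t) : Gr r y z R t → Fin (r + 1) :=
  Sum.elim w.1 (Sum.elim (fun b => w.2.1 b.1 b.2) (fun c => w.2.2 c.1 c.2))

/-- the set `F_m` of a word -/
def low (w : Word r y z R t) (m : Fin r) : Finset (Gr r y z R t) :=
  univ.filter (fun x => (wv w x : ℕ) ≤ (m : ℕ))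

/-- typical words -/
def Typ (A τ : ℝ) (w : Word r y z R t) : Prop :=
  ZTyp A w.1 ∧ (∀ m, ZTyp A (w.2.1 m)) ∧ (∀ p, ZTyp A (w.2.2 p)) ∧
    ∀ m : Fin r, (R : ℝ) * t * (2 - τ) ≤ ∑ p, (Dl (w.2.2 p) m) ^ 2

/-- admissible replacement of the sets `SS` -/
def Val (f0 : Fin r → ℕ) (h : ℕ) (Fn : LF r z R t) (i : Fin r → Fin k) (w : Word r y z R t)
    (S : Fin r → Finset (Fin t)) : Prop :=
  ∀ m, S m ⊆ TT Fn w m ∧ al f0 h Fn i w m ≤ (S m).card ∧ (S m).card ≤ al f0 h Fn i w m + 2 * h

/-- the word of the chain `e` used for `F_m` in window `j` at position `l` -/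
noncomputable def cw (Fn : LF r z R t) (e : Edge r y z R t k h) (m : Fin r) (j : Fin k) (l : ℕ) :
    Word r y z R t :=
  (e.1, fun m' => e.2.1 m' j, fun p =>
    rep (e.2.2 p).1 (fun m' => pv ((e.2.2 p).2 m').2
      (pas (prt Fn e) p m j * (2 * h) + if prt Fn e m j = p then l else 0)) ∘ (fsg (lab Fn e) p).symm)

/-- the chain of the edge `e`: the sets `F_m` in window `j`, position `l` -/
noncomputable def chn (Fn : LF r z R t) (e : Edge r y z R t k h) : Finset (Finset (Gr r y z R t)) :=
  univ.biUnion (fun m : Fin r => univ.biUnion (fun j : Fin k =>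
    (range (2 * h + 1)).image (fun l => low (cw Fn e m j l) m)))

end Units

section Regime

/-- the relations between the parameters; `q` (and `r`, `K`) fixed, `n → ∞`;
`k = q^14`, `R = q^16`, `n = y + r z + R (r+1) t`, `y` and `r z` about `n / q^4`, `k h` about `K √n` -/
structure Reg (r q : ℕ) (K : ℝ) (n t z y h : ℕ) : Prop where
  sum : n = y + r * z + q ^ 16 * ((r + 1) * t)
  y_ge : n ≤ 2 * q ^ 4 * y
  y_le : q ^ 4 * y ≤ 2 * n
  z_ge : n ≤ 2 * q ^ 4 * (r * z)
  z_le : q ^ 4 * (r * z) ≤ 2 * n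
  h_ge : K * Real.sqrt n ≤ (q : ℝ) ^ 14 * h
  h_le : (q : ℝ) ^ 14 * h ≤ K * Real.sqrt n + (q : ℝ) ^ 14

/-- the bottom of the box: the reference type is `⌊(m+1) n / (r+1)⌋` -/
def F0 (r q n h : ℕ) (m : Fin r) : ℕ := ((m : ℕ) + 1) * n / (r + 1) - q ^ 14 * h

/-- niceness threshold of the precise kernel -/
def DA (q t : ℕ) : ℕ := q ^ 2 * (Nat.sqrt t + 1)

/-- niceness threshold of the rough kernel -/
def DB (q t : ℕ) : ℕ := q ^ 10 * (Nat.sqrt t + 1)

end Regime

end Pool.Agent.Lib_helper46.CC
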